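import Pool.Agent.H29.BH.Targets2
import Pool.Agent.H48.RC.RX

/-!
# The hybrid bound of Burgess: module N_CA, mean values of the counting functions
-/

set_option autoImplicit false

open NumberField NumberField.InfinitePlace NumberField.Units
  NumberField.Units.dirichletUnitTheorem MeasureTheory Set Filter Complex
open scoped nonZeroDivisors ENNReal

namespace Pool.Agent.H49.BH.NCA

open Pool.Agent.H25.HK Pool.Agent.H23.LB Pool.Agent.H23.LC Pool.Agent.H29.DW
open Pool.Agent.H29.BH
open Pool.Agent.H28.RC (Rep ft idl)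

section NF

variable {K : Type} [Field K] [NumberField K]

open scoped Classical in
/-- indicator function of the ball -/
noncomputable def bi (η : InfinitePlace K → ℝ) (z ζ : InfinitePlace K → ℂ) : ℝ≥0∞ :=
  if ∀ v : InfinitePlace K, ‖ζ v - z v‖ ≤ 2 * η v then 1 else 0

theorem bi_meas (η : InfinitePlace K → ℝ) (z : InfinitePlace K → ℂ) : Measurable (bi η z) := by
  classical
  unfold bi
  refine Measurable.ite ?_ measurable_const measurable_const
  have : {ζ : InfinitePlace K → ℂ | ∀ v, ‖ζ v - z v‖ ≤ 2 * η v} =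
      ⋂ v, {ζ | ‖ζ v - z v‖ ≤ 2 * η v} := by
    ext ζ
    simp
  rw [this]
  exact MeasurableSet.iInter fun v => measurableSet_le (by fun_prop) measurable_const

theorem bi_shift (η : InfinitePlace K → ℝ) (z ζ s : InfinitePlace K → ℂ) :
    bi η z (fun v => ζ v + s v) = bi η (fun v => z v - s v) ζ := by
  unfold bi
  congr 1
  refine propext (forall_congr' fun v => ?_)
  have : ζ v + s v - z v = ζ v - (z v - s v) := by ring
  rw [this]

theorem mz_ball (r : Bool) (z : ℂ) {η : ℝ} (hη : 0 < η) :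
    mz r {w | ‖w - z‖ ≤ 2 * η} ≤ ENNReal.ofReal (4 * Real.pi * η ^ dg r) := by
  have hpi := Real.pi_gt_three
  have hms : MeasurableSet {w : ℂ | ‖w - z‖ ≤ 2 * η} :=
    measurableSet_le (by fun_prop) measurable_const
  cases r
  · have h1 : {w : ℂ | ‖w - z‖ ≤ 2 * η} = Metric.closedBall z (2 * η) := by
      ext w
      simp [dist_eq_norm]
    rw [h1]
    show volume (Metric.closedBall z (2 * η)) ≤ _
    rw [Complex.volume_closedBall]
    have h2 : (NNReal.pi : ℝ≥0∞) = ENNReal.ofReal Real.pi := by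
      rw [ENNReal.ofReal]
      congr 1
      exact (Real.toNNReal_coe (r := NNReal.pi)).symm
    rw [h2, ← ENNReal.ofReal_pow (by positivity), ← ENNReal.ofReal_mul (by positivity)]
    refine ENNReal.ofReal_le_ofReal (le_of_eq ?_)
    show (2 * η) ^ 2 * Real.pi = 4 * Real.pi * η ^ 2
    ring
  · show Measure.map (fun x : ℝ => (x : ℂ)) volume _ ≤ _
    rw [Measure.map_apply (by fun_prop) hms]
    have h1 : (fun x : ℝ => (x : ℂ)) ⁻¹' {w : ℂ | ‖w - z‖ ≤ 2 * η} ⊆
        Metric.closedBall z.re (2 * η) := by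
      intro x hx
      have h2 : ‖(x : ℂ) - z‖ ≤ 2 * η := hx
      rw [Metric.mem_closedBall, Real.dist_eq]
      refine le_trans ?_ h2
      have := Complex.abs_re_le_norm ((x : ℂ) - z)
      simpa using this
    refine (measure_mono h1).trans ?_
    rw [Real.volume_closedBall]
    refine ENNReal.ofReal_le_ofReal ?_
    show 2 * (2 * η) ≤ 4 * Real.pi * η ^ 1
    nlinarith

theorem dg_rv (v : InfinitePlace K) : dg (rv v) = v.mult := by
  unfold dg rv InfinitePlace.mult
  by_cases h : v.IsReal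
  · simp [h]
  · simp [h]

theorem card_le : Fintype.card (InfinitePlace K) ≤ Module.finrank ℚ K := by
  rw [← InfinitePlace.sum_mult_eq, Fintype.card_eq_sum_ones]
  exact Finset.sum_le_sum fun v _ => InfinitePlace.mult_pos

theorem mass (η : InfinitePlace K → ℝ) (hη : ∀ v, 0 < η v) (z : InfinitePlace K → ℂ) :
    ∫⁻ ζ, bi η z ζ ∂mK K ≤
      ENNReal.ofReal ((4 * Real.pi) ^ Module.finrank ℚ K * ∏ v, η v ^ v.mult) := by
  classical
  have hpi := Real.pi_gt_three
  have h1 : bi η z = (Set.pi univ fun v => {w : ℂ | ‖w - z v‖ ≤ 2 * η v}).indicator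
      (fun _ => (1 : ℝ≥0∞)) := by
    funext ζ
    unfold bi
    rw [Set.indicator_apply]
    congr 1
    simp
  have hms : MeasurableSet (Set.pi univ fun v : InfinitePlace K =>
      {w : ℂ | ‖w - z v‖ ≤ 2 * η v}) :=
    MeasurableSet.univ_pi fun v => measurableSet_le (by fun_prop) measurable_const
  rw [h1, lintegral_indicator hms, setLIntegral_const, one_mul, mK, Measure.pi_pi]
  calc ∏ v, mz (rv v) {w : ℂ | ‖w - z v‖ ≤ 2 * η v}
      ≤ ∏ v : InfinitePlace K, ENNReal.ofReal (4 * Real.pi * η v ^ v.mult) := by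
        refine Finset.prod_le_prod' fun v _ => ?_
        rw [← dg_rv v]
        exact mz_ball _ _ (hη v)
    _ = ENNReal.ofReal (∏ v : InfinitePlace K, (4 * Real.pi * η v ^ v.mult)) := by
        rw [ENNReal.ofReal_prod_of_nonneg]
        intro v _
        have := hη v
        positivity
    _ ≤ _ := by
        refine ENNReal.ofReal_le_ofReal ?_
        rw [Finset.prod_mul_distrib, Finset.prod_const, Finset.card_univ]
        refine mul_le_mul_of_nonneg_right ?_ (Finset.prod_nonneg fun v _ => (pow_pos (hη v) _).le)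
        exact pow_le_pow_right₀ (by linarith) card_le

theorem cntK : Countable K := by
  have b := Module.finBasis ℚ K
  exact b.equivFun.toEquiv.injective.countable

theorem sy_add (y : InfinitePlace K → ℝ) (a b : K) (v : InfinitePlace K) :
    sy y (a + b) v = sy y a v + sy y b v := by
  unfold sy
  rw [map_add]
  ring

theorem sy_sub (y : InfinitePlace K → ℝ) (a b : K) (v : InfinitePlace K) :
    sy y (a - b) v = sy y a v - sy y b v := by
  unfold sy
  rw [map_sub]
  ring

/-- the lattice `f c⁻¹ L` -/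
noncomputable def Mc (f : Ideal (𝓞 K)) (L : FI K) (c : Ideal (𝓞 K)) : FI K :=
  (f : FI K) * ((c : FI K)⁻¹ * L)

theorem cne {c : Ideal (𝓞 K)} (hc : c ≠ ⊥) : (c : FI K) ≠ 0 := by
  rwa [Ne, FractionalIdeal.coeIdeal_eq_zero]

theorem c_Mc (f : Ideal (𝓞 K)) (L : FI K) {c : Ideal (𝓞 K)} (hc : c ≠ ⊥) :
    (c : FI K) * Mc f L c = (f : FI K) * L := by
  unfold Mc
  have h := cne hc
  field_simp

theorem Mc_ne {f : Ideal (𝓞 K)} {L : FI K} {c : Ideal (𝓞 K)} (hf : f ≠ ⊥) (hL : L ≠ 0)
    (hc : c ≠ ⊥) : Mc f L c ≠ 0 := by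
  unfold Mc
  exact mul_ne_zero (cne hf) (mul_ne_zero (inv_ne_zero (cne hc)) hL)

theorem mem_Mc {f : Ideal (𝓞 K)} {L : FI K} {c : Ideal (𝓞 K)} (hc : c ≠ ⊥) (x : K) :
    x ∈ Mc f L c ↔
      (c : FI K) * FractionalIdeal.spanSingleton (𝓞 K)⁰ x ≤ (f : FI K) * L := by
  rw [← FractionalIdeal.spanSingleton_le_iff_mem]
  constructor
  · intro h
    rw [← c_Mc f L hc]
    exact mul_le_mul' le_rfl h
  · intro h
    have h2 := mul_le_mul' (le_refl ((c : FI K)⁻¹)) h
    have e1 : (c : FI K)⁻¹ * ((c : FI K) * FractionalIdeal.spanSingleton (𝓞 K)⁰ x) =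
        FractionalIdeal.spanSingleton (𝓞 K)⁰ x := by
      rw [← mul_assoc, inv_mul_cancel₀ (cne hc), one_mul]
    have e2 : (c : FI K)⁻¹ * ((f : FI K) * L) = Mc f L c := by
      unfold Mc
      ring
    rwa [e1, e2] at h2

theorem mem_sup {f a b : Ideal (𝓞 K)} {L : FI K} (ha : a ≠ ⊥) (hb : b ≠ ⊥) {x : K}
    (h1 : x ∈ Mc f L a) (h2 : x ∈ Mc f L b) : x ∈ Mc f L (a ⊔ b) := by
  have hab : a ⊔ b ≠ ⊥ := fun h => ha (by
    have : a ≤ ⊥ := h ▸ le_sup_left
    exact le_bot_iff.1 this)
  rw [mem_Mc ha] at h1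
  rw [mem_Mc hb] at h2
  rw [mem_Mc hab, FractionalIdeal.coeIdeal_sup, add_mul, ← FractionalIdeal.sup_eq_add]
  exact sup_le h1 h2

theorem Msub {M : FI K} {x y : K} (hx : x ∈ M) (hy : y ∈ M) : x - y ∈ M := by
  rw [← FractionalIdeal.mem_coe] at hx hy ⊢
  exact sub_mem hx hy

theorem mem_mono {f a b : Ideal (𝓞 K)} {L : FI K} (ha : a ≠ ⊥) (hb : b ≠ ⊥) (hab : a ≤ b) {x : K}
    (h : x ∈ Mc f L b) : x ∈ Mc f L a := by
  rw [mem_Mc ha]
  rw [mem_Mc hb] at h
  refine le_trans ?_ h
  have h2 : (a : FI K) ≤ (b : FI K) := FractionalIdeal.coeIdeal_le_coeIdeal K |>.2 hab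
  exact mul_le_mul' h2 le_rfl

open scoped Classical in
/-- the sum over `w₀ + f c⁻¹ L` of the indicator function -/
noncomputable def Ts (f : Ideal (𝓞 K)) (L : FI K) (y η : InfinitePlace K → ℝ) (c : Ideal (𝓞 K))
    (z : InfinitePlace K → ℂ) (w₀ : K) (ζ : InfinitePlace K → ℂ) : ℝ≥0∞ :=
  ∑' x : K, if x ∈ Mc f L c then bi η z (fun v => ζ v + sy y (w₀ + x) v) else 0

theorem Ts_meas (f : Ideal (𝓞 K)) (L : FI K) (y η : InfinitePlace K → ℝ) (c : Ideal (𝓞 K))
    (z : InfinitePlace K → ℂ) (w₀ : K) : Measurable (Ts f L y η c z w₀) := by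
  classical
  have := cntK (K := K)
  unfold Ts
  refine Measurable.tsum fun x => ?_
  by_cases hx : x ∈ Mc f L c
  · simp only [hx, if_true]
    exact (bi_meas η z).comp (by fun_prop)
  · simp only [hx, if_false]
    exact measurable_const

theorem nA_eq (f : Ideal (𝓞 K)) (L : FI K) (y η : InfinitePlace K → ℝ) (a : Ideal (𝓞 K))
    (ζ z : InfinitePlace K → ℂ) : nA f L y η a ζ z = Ts f L y η a z 0 ζ := by
  classical
  unfold nA Ts
  refine (tsum_subtype {w : K | w ∈ Mc f L a}
    (fun w : K => bi η z (fun v => ζ v + sy y w v))).trans ?_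
  refine tsum_congr fun x => ?_
  rw [Set.indicator_apply, zero_add]
  rfl

theorem coset_le {f : Ideal (𝓞 K)} {L : FI K} {y η : InfinitePlace K → ℝ}
    {F : Set (InfinitePlace K → ℂ)} (hFS : FS ((f : FI K) * L) y F) (hη : ∀ v, 0 < η v)
    (hf : f ≠ ⊥) (hL : L ≠ 0) {c : Ideal (𝓞 K)} (hc : c ≠ ⊥) (z : InfinitePlace K → ℂ) (w₀ : K) :
    ∫⁻ ζ in F, Ts f L y η c z w₀ ζ ∂mK K ≤
      ENNReal.ofReal (Nf K c * ((4 * Real.pi) ^ Module.finrank ℚ K * ∏ v, η v ^ v.mult)) := by
  classical
  have := cntK (K := K)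
  obtain ⟨V, hV, hcard⟩ := Pool.Agent.H48.RC.pf_RX K c (Mc f L c) hc (Mc_ne hf hL hc)
  have h1 : ∀ ζ, Ts f L y η c z w₀ ζ ≤ ∑ r ∈ V, ∑' l : {l : K // l ∈ (f : FI K) * L},
      bi η (fun v => z v - sy y (w₀ + r) v) (fun v => ζ v + sy y l.1 v) := by
    intro ζ
    unfold Ts
    calc ∑' x : K, (if x ∈ Mc f L c then bi η z (fun v => ζ v + sy y (w₀ + x) v) else 0)
        ≤ ∑' x : K, ∑ r ∈ V, (if x - r ∈ (f : FI K) * L then
            bi η z (fun v => ζ v + sy y (w₀ + x) v) else 0) := by
          refine ENNReal.tsum_le_tsum fun x => ?_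
          split_ifs with hx
          · obtain ⟨r, ⟨hr, hxr⟩, -⟩ := hV.2 x hx
            rw [c_Mc f L hc] at hxr
            refine le_trans ?_ (Finset.single_le_sum (f := fun r => if x - r ∈ (f : FI K) * L then
              bi η z (fun v => ζ v + sy y (w₀ + x) v) else 0) (fun _ _ => zero_le) hr)
            simp only [hxr, if_true]
            exact le_rfl
          · exact zero_le
      _ = ∑ r ∈ V, ∑' x : K, (if x - r ∈ (f : FI K) * L then
            bi η z (fun v => ζ v + sy y (w₀ + x) v) else 0) := by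
          exact Summable.tsum_finsetSum fun _ _ => ENNReal.summable
      _ = _ := by
          refine Finset.sum_congr rfl fun r _ => ?_
          rw [← (Equiv.addLeft r).tsum_eq]
          have e : ∑' l : {l : K // l ∈ (f : FI K) * L},
              bi η (fun v => z v - sy y (w₀ + r) v) (fun v => ζ v + sy y l.1 v) =
              ∑' l : K, ({l : K | l ∈ (f : FI K) * L}).indicator
                (fun l => bi η (fun v => z v - sy y (w₀ + r) v) (fun v => ζ v + sy y l v)) l :=
            tsum_subtype {l : K | l ∈ (f : FI K) * L}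
              (fun l => bi η (fun v => z v - sy y (w₀ + r) v) (fun v => ζ v + sy y l v))
          rw [e]
          refine tsum_congr fun l => ?_
          rw [Set.indicator_apply]
          have e2 : (Equiv.addLeft r) l - r = l := by
            simp
          rw [e2]
          by_cases hl : l ∈ (f : FI K) * L
          · rw [if_pos hl, if_pos (by exact hl), ← bi_shift]
            congr 1
            funext v
            rw [show w₀ + (Equiv.addLeft r) l = (w₀ + r) + l by simp [add_assoc], sy_add]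
            ring
          · rw [if_neg hl, if_neg (by exact hl)]
  calc ∫⁻ ζ in F, Ts f L y η c z w₀ ζ ∂mK K
      ≤ ∫⁻ ζ in F, ∑ r ∈ V, ∑' l : {l : K // l ∈ (f : FI K) * L},
          bi η (fun v => z v - sy y (w₀ + r) v) (fun v => ζ v + sy y l.1 v) ∂mK K :=
        lintegral_mono h1
    _ = ∑ r ∈ V, ∫⁻ ζ in F, ∑' l : {l : K // l ∈ (f : FI K) * L},
          bi η (fun v => z v - sy y (w₀ + r) v) (fun v => ζ v + sy y l.1 v) ∂mK K := by
        rw [lintegral_finsetSum]
        intro r _
        refine Measurable.tsum fun l => ?_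
        exact (bi_meas η _).comp (by fun_prop)
    _ = ∑ r ∈ V, ∫⁻ ζ, bi η (fun v => z v - sy y (w₀ + r) v) ζ ∂mK K := by
        refine Finset.sum_congr rfl fun r _ => ?_
        exact (hFS.2 _ (bi_meas η _)).symm
    _ ≤ ∑ r ∈ V, ENNReal.ofReal ((4 * Real.pi) ^ Module.finrank ℚ K * ∏ v, η v ^ v.mult) :=
        Finset.sum_le_sum fun r _ => mass η hη _
    _ = _ := by
        rw [Finset.sum_const, nsmul_eq_mul, hcard]
        unfold Nf
        rw [ENNReal.ofReal_mul (p := (Ideal.absNorm c : ℝ)) (by positivity),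
          ENNReal.ofReal_natCast]

theorem bi_le (η : InfinitePlace K → ℝ) (z ζ : InfinitePlace K → ℂ) : bi η z ζ ≤ 1 := by
  unfold bi
  split_ifs
  · exact le_rfl
  · exact zero_le

theorem bi_ne {η : InfinitePlace K → ℝ} {z ζ : InfinitePlace K → ℂ} (h : bi η z ζ ≠ 0) :
    ∀ v, ‖ζ v - z v‖ ≤ 2 * η v := by
  unfold bi at h
  by_contra h2
  rw [if_neg h2] at h
  exact h rfl

open scoped Classical in
/-- a point `w` of `f a⁻¹ L` with `w - h` in `f b⁻¹ L` -/
noncomputable def w0 (f : Ideal (𝓞 K)) (L : FI K) (a b : Ideal (𝓞 K)) (h : K) : K :=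
  if H : ∃ w, w ∈ Mc f L a ∧ w - h ∈ Mc f L b then H.choose else 0

open scoped Classical in
theorem pair_le {f : Ideal (𝓞 K)} {L : FI K} {y η : InfinitePlace K → ℝ} {a b : Ideal (𝓞 K)}
    (ha : a ≠ ⊥) (hb : b ≠ ⊥) (z ζ : InfinitePlace K → ℂ) :
    nA f L y η a ζ z * nA f L y η b ζ z ≤ ∑' h : K,
      if (h ∈ Mc f L (a ⊓ b) ∧ ∀ v, ‖sy y h v‖ ≤ 4 * η v) then
        Ts f L y η (a ⊔ b) z (w0 f L a b h) ζ else 0 := by
  have hab : a ⊓ b ≠ ⊥ := by
    intro h
    have h1 : a * b ≤ ⊥ := h ▸ Ideal.mul_le_inf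
    have h2 := Ideal.mul_eq_bot.1 (le_bot_iff.1 h1)
    tauto
  rw [nA_eq, nA_eq]
  set A : K → ℝ≥0∞ := fun w => if w ∈ Mc f L a then bi η z (fun v => ζ v + sy y (0 + w) v) else 0
    with hA
  set B : K → ℝ≥0∞ := fun w => if w ∈ Mc f L b then bi η z (fun v => ζ v + sy y (0 + w) v) else 0
    with hB
  have e1 : Ts f L y η a z 0 ζ * Ts f L y η b z 0 ζ = ∑' h : K, ∑' w : K, A w * B (w - h) := by
    rw [ENNReal.tsum_comm]
    show (∑' w, A w) * (∑' w, B w) = _
    rw [← ENNReal.tsum_mul_right]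
    refine tsum_congr fun w => ?_
    rw [ENNReal.tsum_mul_left]
    congr 1
    exact ((Equiv.subLeft w).tsum_eq B).symm
  rw [e1]
  refine ENNReal.tsum_le_tsum fun h => ?_
  have hBle : ∀ w, B w ≤ 1 := by
    intro w
    simp only [hB]
    split_ifs
    · exact bi_le _ _ _
    · exact zero_le
  have hne : ∀ w, A w * B (w - h) ≠ 0 → w ∈ Mc f L a ∧ w - h ∈ Mc f L b ∧
      (∀ v, ‖ζ v + sy y w v - z v‖ ≤ 2 * η v) ∧ ∀ v, ‖ζ v + sy y (w - h) v - z v‖ ≤ 2 * η v := by
    intro w hw
    have h1 : A w ≠ 0 := left_ne_zero_of_mul hw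
    have h2 : B (w - h) ≠ 0 := right_ne_zero_of_mul hw
    simp only [hA, hB, zero_add] at h1 h2
    have h3 : w ∈ Mc f L a := by
      by_contra hc
      rw [if_neg hc] at h1
      exact h1 rfl
    have h4 : w - h ∈ Mc f L b := by
      by_contra hc
      rw [if_neg hc] at h2
      exact h2 rfl
    rw [if_pos h3] at h1
    rw [if_pos h4] at h2
    exact ⟨h3, h4, bi_ne h1, bi_ne h2⟩
  have key : ∀ w, A w * B (w - h) ≠ 0 → (h ∈ Mc f L (a ⊓ b) ∧ ∀ v, ‖sy y h v‖ ≤ 4 * η v) := by
    intro w hw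
    obtain ⟨h1, h2, h3, h4⟩ := hne w hw
    constructor
    · have h5 := mem_mono hab ha inf_le_left h1
      have h6 := mem_mono hab hb inf_le_right h2
      have h7 : w - (w - h) ∈ Mc f L (a ⊓ b) := Msub h5 h6
      rwa [sub_sub_cancel] at h7
    · intro v
      have h5 : sy y h v = (ζ v + sy y w v - z v) - (ζ v + sy y (w - h) v - z v) := by
        rw [sy_sub]
        ring
      rw [h5]
      refine (norm_sub_le _ _).trans ?_
      linarith [h3 v, h4 v]
  by_cases hH : h ∈ Mc f L (a ⊓ b) ∧ ∀ v, ‖sy y h v‖ ≤ 4 * η v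
  · rw [if_pos hH]
    by_cases hex : ∃ w, w ∈ Mc f L a ∧ w - h ∈ Mc f L b
    · have hw0 : w0 f L a b h = hex.choose := by
        unfold w0
        rw [dif_pos hex]
      obtain ⟨g1, g2⟩ := hex.choose_spec
      rw [← hw0] at g1 g2
      set r := w0 f L a b h with hr
      have e2 : Ts f L y η (a ⊔ b) z r ζ = ∑' w : K, if w - r ∈ Mc f L (a ⊔ b) then
          bi η z (fun v => ζ v + sy y w v) else 0 := by
        unfold Ts
        rw [← (Equiv.addLeft r).tsum_eq (fun w : K => if w - r ∈ Mc f L (a ⊔ b) then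
          bi η z (fun v => ζ v + sy y w v) else 0)]
        refine tsum_congr fun x => ?_
        have e3 : (Equiv.addLeft r) x - r = x := by simp
        simp only [e3]
        rfl
      rw [e2]
      refine ENNReal.tsum_le_tsum fun w => ?_
      by_cases hw : A w * B (w - h) = 0
      · rw [hw]
        exact zero_le
      · obtain ⟨h1, h2, h3, h4⟩ := hne w hw
        have h5 : w - r ∈ Mc f L a := Msub h1 g1
        have h6 : w - r ∈ Mc f L b := by
          have := Msub h2 g2
          rwa [sub_sub_sub_cancel_right] at this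
        rw [if_pos (mem_sup ha hb h5 h6)]
        refine (mul_le_of_le_one_right' (hBle _)).trans ?_
        simp only [hA, zero_add, if_pos h1]
        exact le_rfl
    · refine le_of_eq_of_le ?_ zero_le
      rw [ENNReal.tsum_eq_zero]
      intro w
      by_contra hw
      obtain ⟨h1, h2, -, -⟩ := hne w hw
      exact hex ⟨w, h1, h2⟩
  · rw [if_neg hH]
    refine le_of_eq ?_
    rw [ENNReal.tsum_eq_zero]
    intro w
    by_contra hw
    exact hH (key w hw)

end NF

end Pool.Agent.H49.BH.NCA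

namespace Pool.Agent.H49.BH

open Pool.Agent.H25.HK Pool.Agent.H23.LB Pool.Agent.H23.LC Pool.Agent.H29.DW
open Pool.Agent.H29.BH NCA
open Pool.Agent.H28.RC (Rep ft idl)

/-- (CA) the mean values of the counting functions of two multipliers. -/
theorem pf_N_CA (hNV : K_NV) (hNB : K_NB) : N_CA := by
  classical
  intro n hn
  obtain ⟨C, hC1, hC⟩ := hNB n hn
  have hpi := Real.pi_gt_three
  have hpn : 1 ≤ (4 * Real.pi) ^ n := one_le_pow₀ (by linarith)
  have h4n : (1 : ℝ) ≤ 4 ^ n := one_le_pow₀ (by norm_num)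
  have hC' : 1 ≤ C * 4 ^ n := one_le_mul_of_one_le_of_one_le hC1 h4n
  refine ⟨(4 * Real.pi) ^ n * (C * 4 ^ n), one_le_mul_of_one_le_of_one_le hpn hC', ?_⟩
  intro K _ _ hK f a b L y η F z hf ha hb hL hFS hη
  have hcnt := cntK (K := K)
  set E : ℝ := ∏ v : InfinitePlace K, η v ^ v.mult with hE
  have hE0 : 0 < E := Finset.prod_pos fun v _ => pow_pos (hη v) _
  have hNf : ∀ c : Ideal (𝓞 K), 0 ≤ Nf K c := fun c => by
    unfold Nf
    positivity
  constructor
  · have h1 := coset_le hFS hη hf hL ha z 0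
    simp only [nA_eq]
    refine h1.trans (ENNReal.ofReal_le_ofReal ?_)
    rw [hK]
    have h2 : 0 ≤ (4 * Real.pi) ^ n * (E * Nf K a) := by
      have := hNf a
      positivity
    calc Nf K a * ((4 * Real.pi) ^ n * E) = (4 * Real.pi) ^ n * (E * Nf K a) * 1 := by ring
      _ ≤ (4 * Real.pi) ^ n * (E * Nf K a) * (C * 4 ^ n) := mul_le_mul_of_nonneg_left hC' h2
      _ = _ := by ring
  · have hab : a ⊓ b ≠ ⊥ := by
      intro h
      have h1 : a * b ≤ ⊥ := h ▸ Ideal.mul_le_inf
      have h2 := Ideal.mul_eq_bot.1 (le_bot_iff.1 h1)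
      tauto
    have hsup : a ⊔ b ≠ ⊥ := fun h => ha (by
      have : a ≤ ⊥ := h ▸ le_sup_left
      exact le_bot_iff.1 this)
    have hM := Mc_ne hf hL hab
    obtain ⟨hfin, hcard⟩ := hC K hK (Mc f L (a ⊓ b)) y (fun v => 4 * η v) hM
      (fun v => by have := hη v; positivity)
    set m : ℝ := Nf K (a ⊔ b) * ((4 * Real.pi) ^ n * E) with hm
    have hm0 : 0 ≤ m := by
      have := hNf (a ⊔ b)
      positivity
    calc ∫⁻ ζ in F, nA f L y η a ζ z * nA f L y η b ζ z ∂mK K
        ≤ ∫⁻ ζ in F, ∑' h : K, (if (h ∈ Mc f L (a ⊓ b) ∧ ∀ v, ‖sy y h v‖ ≤ 4 * η v) then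
            Ts f L y η (a ⊔ b) z (w0 f L a b h) ζ else 0) ∂mK K :=
          lintegral_mono fun ζ => pair_le ha hb z ζ
      _ = ∑' h : K, ∫⁻ ζ in F, (if (h ∈ Mc f L (a ⊓ b) ∧ ∀ v, ‖sy y h v‖ ≤ 4 * η v) then
            Ts f L y η (a ⊔ b) z (w0 f L a b h) ζ else 0) ∂mK K := by
          refine lintegral_tsum fun h => ?_
          by_cases hh : h ∈ Mc f L (a ⊓ b) ∧ ∀ v, ‖sy y h v‖ ≤ 4 * η v
          · simp only [if_pos hh]
            exact (Ts_meas f L y η (a ⊔ b) z (w0 f L a b h)).aemeasurable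
          · simp only [if_neg hh]
            exact aemeasurable_const
      _ ≤ ∑' h : K, (if (h ∈ Mc f L (a ⊓ b) ∧ ∀ v, ‖sy y h v‖ ≤ 4 * η v) then
            ENNReal.ofReal m else 0) := by
          refine ENNReal.tsum_le_tsum fun h => ?_
          by_cases hh : h ∈ Mc f L (a ⊓ b) ∧ ∀ v, ‖sy y h v‖ ≤ 4 * η v
          · simp only [if_pos hh]
            have := coset_le hFS hη hf hL hsup z (w0 f L a b h)
            rwa [hK] at this
          · simp only [if_neg hh]
            simp
      _ ≤ ENNReal.ofReal (1 + C * (∏ v : InfinitePlace K, (4 * η v) ^ v.mult) *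
            bt (Mc f L (a ⊓ b)) y) * ENNReal.ofReal m := by
          set S : Finset K := insert 0 hfin.toFinset with hS
          rw [tsum_eq_sum (s := S)]
          · refine (Finset.sum_le_card_nsmul _ _ (ENNReal.ofReal m) fun h _ => ?_).trans ?_
            · split_ifs
              · exact le_rfl
              · exact zero_le
            · rw [nsmul_eq_mul]
              refine mul_le_mul' ?_ le_rfl
              rw [← ENNReal.ofReal_natCast]
              refine ENNReal.ofReal_le_ofReal ?_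
              have h1 : (S.card : ℝ) ≤ hfin.toFinset.card + 1 := by
                exact_mod_cast Finset.card_insert_le _ _
              have h2 : (hfin.toFinset.card : ℝ) ≤ C * (∏ v : InfinitePlace K,
                  (4 * η v) ^ v.mult) * bt (Mc f L (a ⊓ b)) y := by
                rw [← Set.ncard_eq_toFinset_card _ hfin]
                exact hcard
              linarith
          · intro h hh
            rw [if_neg]
            rintro ⟨h1, h2⟩
            apply hh
            rw [hS, Finset.mem_insert]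
            by_cases h0 : h = 0
            · exact Or.inl h0
            · exact Or.inr (hfin.mem_toFinset.2 ⟨h1, h0, h2⟩)
      _ ≤ _ := by
          rw [← ENNReal.ofReal_mul' hm0]
          refine ENNReal.ofReal_le_ofReal ?_
          -- the numbers
          have hbt0 := (hNV K L y hL).1
          have hb1 := ((hNV K L y hL).2.2.2.2.1 (a ⊓ b) hab).2
          have hL' : ((a ⊓ b : Ideal (𝓞 K)) : FI K)⁻¹ * L ≠ 0 :=
            mul_ne_zero (inv_ne_zero (cne hab)) hL
          have hb2 := ((hNV K _ y hL').2.2.2.2.1 f hf).1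
          have hbt : bt (Mc f L (a ⊓ b)) y = bt L y * Nf K (a ⊓ b) / Nf K f := by
            unfold Mc
            rw [hb2, hb1]
          have hprod : ∏ v : InfinitePlace K, (4 * η v) ^ v.mult = 4 ^ n * E := by
            rw [hE, ← hK, ← InfinitePlace.sum_mult_eq, ← Finset.prod_pow_eq_pow_sum,
              ← Finset.prod_mul_distrib]
            exact Finset.prod_congr rfl fun v _ => mul_pow _ _ _
          have hNN : Nf K (a ⊓ b) * Nf K (a ⊔ b) = Nf K a * Nf K b := by
            unfold Nf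
            rw [mul_comm, ← Nat.cast_mul, ← Nat.cast_mul, ← map_mul, ← map_mul,
              Ideal.sup_mul_inf]
          have hNfp : 0 < Nf K f := by
            unfold Nf
            have : 0 < Ideal.absNorm f := Nat.pos_of_ne_zero fun h => hf
              (Ideal.absNorm_eq_zero_iff.1 h)
            exact_mod_cast this
          rw [hbt, hprod, hm]
          set X : ℝ := E * bt L y * (Nf K a * Nf K b) / Nf K f with hX
          have hX0 : 0 ≤ X := by
            have h1 := hNf a
            have h2 := hNf b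
            positivity
          have e1 : (1 + C * (4 ^ n * E) * (bt L y * Nf K (a ⊓ b) / Nf K f)) *
              (Nf K (a ⊔ b) * ((4 * Real.pi) ^ n * E)) =
              (4 * Real.pi) ^ n * E * (Nf K (a ⊔ b) + C * 4 ^ n * X) := by
            rw [hX, ← hNN]
            ring
          rw [e1]
          have h5 : Nf K (a ⊔ b) ≤ C * 4 ^ n * Nf K (a ⊔ b) :=
            le_mul_of_one_le_left (hNf _) hC'
          have h6 : 0 ≤ (4 * Real.pi) ^ n * E := by positivity
          calc (4 * Real.pi) ^ n * E * (Nf K (a ⊔ b) + C * 4 ^ n * X)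
              ≤ (4 * Real.pi) ^ n * E * (C * 4 ^ n * Nf K (a ⊔ b) + C * 4 ^ n * X) :=
                mul_le_mul_of_nonneg_left (by linarith) h6
            _ = _ := by ring

end Pool.Agent.H49.BH
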